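import Pool.Agent.H95.CP.Low3
import Pool.Agent.H31.CP.Base

/-!
Project CP, lower bound: volumes.
-/

set_option autoImplicit false

open Real Set MeasureTheory Metric Filter Topology
open scoped ENNReal Nat ComplexConjugate Pointwise

namespace Pool.Agent.H95.CP

open Pool.Agent.H96.HD hiding om
open Pool.Agent.H96.CP

theorem continuous_glue (m : ℕ) (b : ℕ → ℕ → ℂ) (i j : ℕ) :
    Continuous fun w : Fin m × Fin m → ℂ => glue m b w i j := by
  unfold glue
  split_ifs
  · exact continuous_apply _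
  · exact continuous_const

theorem isClosed_Kb (m : ℕ) (b : ℕ → ℕ → ℂ) : IsClosed (Kb m b) := by
  have e : Kb m b = (⋂ (i : ℕ) (j : ℕ) (_ : i < m + 1) (_ : j ≤ m + 1),
      {w | 0 ≤ D0 (glue m b w) i j}) ∩ ((⋂ (i : ℕ) (j : ℕ) (_ : i ≤ m + 1) (_ : j < m + 1),
      {w | 0 ≤ D1 (glue m b w) i j}) ∩ (⋂ (i : ℕ) (j : ℕ) (_ : i < m + 1) (_ : j < m + 1),
      {w | 0 ≤ D2 (glue m b w) i j})) := by
    ext w
    simp only [Kb, Pos, mem_inter_iff, mem_iInter, mem_ofPred_eq]
  rw [e]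
  refine IsClosed.inter ?_ (IsClosed.inter ?_ ?_)
  · refine isClosed_iInter fun i => isClosed_iInter fun j => isClosed_iInter fun _ =>
      isClosed_iInter fun _ => ?_
    unfold D0
    exact isClosed_le continuous_const (Complex.continuous_re.comp
      ((continuous_glue m b (i + 1) j).sub (continuous_glue m b i j)))
  · refine isClosed_iInter fun i => isClosed_iInter fun j => isClosed_iInter fun _ =>
      isClosed_iInter fun _ => ?_
    unfold D1
    exact isClosed_le continuous_const (Complex.continuous_re.comp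
      (continuous_const.mul ((continuous_glue m b i (j + 1)).sub (continuous_glue m b i j))))
  · refine isClosed_iInter fun i => isClosed_iInter fun j => isClosed_iInter fun _ =>
      isClosed_iInter fun _ => ?_
    unfold D2
    exact isClosed_le continuous_const (Complex.continuous_re.comp
      (continuous_const.mul ((continuous_glue m b i (j + 1)).sub (continuous_glue m b (i + 1) j))))

section

variable {m K : ℕ} {c₁ c₂ : ℂ} {η lam V : ℝ} {P : Fin K → ℤ × ℤ}

theorem isClosed_Vs (m K : ℕ) (c₁ c₂ : ℂ) (η : ℝ) : IsClosed (Vs m K c₁ c₂ η) := by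
  have e : Vs m K c₁ c₂ η = (⋂ k : Fin K, {v : Ix m K → ℂ |
      (fun p : Fin m × Fin m => v (.inl (k, p)) + aff c₁ c₂ (p.1 + 1) (p.2 + 1)) ∈
        Kb m (aff c₁ c₂)}) ∩ (⋂ q : Fin K × Fin (2 * m + 1), {v | ‖v (.inr q)‖ ≤ η / 4}) := by
    ext v
    simp only [Vs, mem_inter_iff, mem_iInter, mem_ofPred_eq]
  rw [e]
  refine IsClosed.inter (isClosed_iInter fun k => ?_) (isClosed_iInter fun q => ?_)
  · refine (isClosed_Kb m (aff c₁ c₂)).preimage ?_
    exact continuous_pi fun p => (continuous_apply _).add continuous_const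
  · exact isClosed_le (continuous_norm.comp (continuous_apply _)) continuous_const

theorem vol_Vs (m K : ℕ) (c₁ c₂ : ℂ) (η : ℝ) :
    volume (Vs m K c₁ c₂ η) = volume (closedBall (0:ℂ) (η / 4)) ^ (K * (2 * m + 1)) *
      vb m (aff c₁ c₂) ^ K := by
  have h1 := (Pool.Agent.H31.CP.measurePreserving_comb
    (α := Fin K) (β := Fin m × Fin m) (γ := Fin K × Fin (2 * m + 1))
    (Equiv.refl _)).measure_preimage_equiv (Vs m K c₁ c₂ η)
  rw [← h1]
  have h2 : (Pool.Agent.H31.CP.combEquiv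
    (α := Fin K) (β := Fin m × Fin m) (γ := Fin K × Fin (2 * m + 1))
    (Equiv.refl _)) ⁻¹' (Vs m K c₁ c₂ η) =
      (Set.pi univ fun _ : Fin K × Fin (2 * m + 1) => closedBall (0:ℂ) (η / 4)) ×ˢ
      (Set.pi univ fun _ : Fin K => (fun w : Fin m × Fin m → ℂ =>
        w + fun p : Fin m × Fin m => aff c₁ c₂ (p.1 + 1) (p.2 + 1)) ⁻¹' Kb m (aff c₁ c₂)) := by
    ext ⟨g, w⟩
    simp only [mem_preimage, Pool.Agent.H31.CP.combEquiv_apply, Vs, comb, mem_prod,
      Set.mem_pi, mem_univ, true_implies, mem_closedBall, dist_zero_right,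
      Equiv.refl_symm, Equiv.refl_apply, Sum.elim_inl, Sum.elim_inr, mem_ofPred_eq]
    exact and_comm
  rw [h2, Measure.volume_eq_prod, Measure.prod_prod, volume_pi_pi]
  rw [volume_pi (ι := Fin K), Measure.pi_pi]
  simp only [measure_preimage_add_right, Finset.prod_const, Finset.card_univ, Fintype.card_prod,
    Fintype.card_fin]
  rfl

/-- the configurations -/
def Xs (m K : ℕ) (P : Fin K → ℤ × ℤ) (c₁ c₂ : ℂ) (η lam : ℝ) : Set (Ix m K → ℂ) :=
  {x | lam⁻¹ • (x + fun s => -Bs P (B1 c₁ η lam) (B2 c₂ η lam) s) ∈ Vs m K c₁ c₂ η}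

theorem card_Ix (m K : ℕ) : Fintype.card (Ix m K) = K * (m + 1) ^ 2 := by
  simp only [Fintype.card_sum, Fintype.card_prod, Fintype.card_fin]
  ring

theorem vol_Xs (hl : 0 < lam) :
    volume (Xs m K P c₁ c₂ η lam) =
      ENNReal.ofReal (lam ^ (2 * (K * (m + 1) ^ 2))) * volume (Vs m K c₁ c₂ η) := by
  have e : Xs m K P c₁ c₂ η lam =
      (fun x : Ix m K → ℂ => x + fun s => -Bs P (B1 c₁ η lam) (B2 c₂ η lam) s) ⁻¹'
        (lam • Vs m K c₁ c₂ η) := by
    ext x
    simp only [Xs, mem_preimage, mem_ofPred_eq]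
    rw [Set.mem_smul_set_iff_inv_smul_mem₀ hl.ne']
  rw [e, measure_preimage_add_right, Measure.addHaar_smul]
  congr 2
  have hf : Module.finrank ℝ (Ix m K → ℂ) = 2 * (K * (m + 1) ^ 2) := by
    rw [Module.finrank_pi_fintype]
    simp only [Complex.finrank_real_complex, Finset.sum_const, Finset.card_univ, card_Ix,
      smul_eq_mul]
    ring
  rw [hf, abs_of_nonneg (by positivity)]

theorem measurable_Xs : MeasurableSet (Xs m K P c₁ c₂ η lam) := by
  refine IsClosed.measurableSet ?_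
  refine (isClosed_Vs m K c₁ c₂ η).preimage ?_
  exact (continuous_id.add continuous_const).const_smul lam⁻¹

theorem Xs_near (hl : 0 < lam) (hV : ∀ v ∈ Vs m K c₁ c₂ η, ∀ s, ‖v s‖ ≤ V)
    {x : Ix m K → ℂ} (hx : x ∈ Xs m K P c₁ c₂ η lam) (s : Ix m K) :
    ‖x s - Bs P (B1 c₁ η lam) (B2 c₂ η lam) s‖ ≤ lam * V := by
  have h1 := hV _ hx s
  rw [Pi.smul_apply, norm_smul, norm_inv, Real.norm_eq_abs, abs_of_pos hl,
    inv_mul_le_iff₀ hl] at h1
  simpa [sub_eq_add_neg] using h1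

theorem Xs_sep (hη : 0 < η) (hc : PosA c₁ c₂) (hP : Function.Injective P)
    (hV : ∀ v ∈ Vs m K c₁ c₂ η, ∀ s, ‖v s‖ ≤ V) (hl : 0 < lam)
    (hl' : lam * (4 * (‖c₁ + η‖ + ‖c₂ + η * om‖) + 2 * V) ≤ 1)
    {x : Ix m K → ℂ} (hx : x ∈ Xs m K P c₁ c₂ η lam) {s t : Ix m K} (hst : s ≠ t) :
    √3 ≤ ‖x s - x t‖ := by
  have h1 := sep_main hη hc hP hx (hV _ hx) hl.le hl' hst.symm
  refine h1.trans (le_of_eq ?_)
  have e : ∀ s, x s = Bs P (B1 c₁ η lam) (B2 c₂ η lam) s + (lam : ℂ) *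
      ((lam⁻¹ • (x + fun s => -Bs P (B1 c₁ η lam) (B2 c₂ η lam) s) : Ix m K → ℂ) s) := by
    intro s
    rw [Pi.smul_apply, Complex.real_smul, ← mul_assoc, ← Complex.ofReal_mul,
      mul_inv_cancel₀ hl.ne', Complex.ofReal_one, one_mul, Pi.add_apply]
    ring
  rw [← e, ← e]

theorem vol_main (hη : 0 < η) (hc : PosA c₁ c₂) (hP : Function.Injective P) (hV1 : 1 ≤ V)
    (hV : ∀ v ∈ Vs m K c₁ c₂ η, ∀ s, ‖v s‖ ≤ V) (hl : 0 < lam)
    (hl' : lam * (4 * (‖c₁ + η‖ + ‖c₂ + η * om‖) + 2 * V) ≤ 1) (L : ℝ)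
    (hbox : ∀ (s : Ix m K) (z : ℂ), ‖z - Bs P (B1 c₁ η lam) (B2 c₂ η lam) s‖ ≤ lam * V →
      z ∈ Sq L) {N : ℕ} (hN : N = K * (m + 1) ^ 2) :
    ((N ! : ℕ) : ℝ≥0∞) * (ENNReal.ofReal (lam ^ (2 * N)) *
      (volume (closedBall (0:ℂ) (η / 4)) ^ (K * (2 * m + 1)) * vb m (aff c₁ c₂) ^ K)) ≤
      volume (Kc N L) := by
  classical
  have hcard : Fintype.card (Ix m K) = Fintype.card (Fin N) := by
    rw [card_Ix, Fintype.card_fin, hN]
  have e0 : Ix m K ≃ Fin N := Fintype.equivOfCardEq hcard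
  set A : (Ix m K ≃ Fin N) → Set (Fin N → ℂ) := fun e =>
    {x | (fun s => x (e s)) ∈ Xs m K P c₁ c₂ η lam} with hA
  have hmA : ∀ e, MeasurableSet (A e) := by
    intro e
    have : Measurable fun (x : Fin N → ℂ) (s : Ix m K) => x (e s) :=
      measurable_pi_iff.2 fun s => measurable_pi_apply _
    exact this measurable_Xs
  have hvA : ∀ e, volume (A e) = volume (Xs m K P c₁ c₂ η lam) := by
    intro e
    have h1 := (volume_measurePreserving_piCongrLeft (fun _ : Fin N => ℂ) e).measure_preimage_equiv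
      (A e)
    rw [← h1]
    congr 1
    ext g
    simp only [mem_preimage, hA, MeasurableEquiv.coe_piCongrLeft, mem_ofPred_eq]
    have : (fun s => (Equiv.piCongrLeft (fun _ : Fin N => ℂ) e) g (e s)) = g := by
      funext s
      exact Equiv.piCongrLeft_apply_apply _ _ _ _
    rw [this]
  have hdisj : Pairwise (Function.onFun Disjoint A) := by
    intro e e' hne
    rw [Function.onFun, Set.disjoint_left]
    intro x hx hx'
    apply hne
    have : e.symm = e'.symm := by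
      ext n : 1
      have h1 := Xs_near hl hV hx (e.symm n)
      have h2 := Xs_near hl hV hx' (e'.symm n)
      simp only [Equiv.apply_symm_apply] at h1 h2
      exact base_sep hP hl.le hV1 hl' h1 h2
    exact Equiv.symm_bijective.1 this
  have hsub : (⋃ e, A e) ⊆ Kc N L := by
    intro x hx
    obtain ⟨e, he⟩ := mem_iUnion.mp hx
    refine ⟨fun i => ?_, fun i j hij => ?_⟩
    · have h1 := Xs_near hl hV he (e.symm i)
      simp only [Equiv.apply_symm_apply] at h1
      exact hbox _ _ h1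
    · have h1 := Xs_sep hη hc hP hV hl hl' he (s := e.symm i) (t := e.symm j)
        (fun h => hij (e.symm.injective h))
      simpa using h1
  refine le_trans (le_of_eq ?_) (measure_mono hsub)
  rw [measure_iUnion hdisj hmA, tsum_fintype, Finset.sum_congr rfl (fun e _ => hvA e),
    Finset.sum_const, Finset.card_univ, Fintype.card_equiv e0, card_Ix, ← hN, vol_Xs hl, vol_Vs,
    ← hN, nsmul_eq_mul]

end

end Pool.Agent.H95.CP
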