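import Pool.Agent.H95.CP.Low1
import Pool.Agent.H95.CP.Low4

/-!
Project CP: the lower bound `S_low` (tiling of the plane with blocks).
-/

set_option autoImplicit false

open Real Set MeasureTheory Metric Filter Topology
open scoped ENNReal Nat ComplexConjugate Pointwise

namespace Pool.Agent.H95.CP

open Pool.Agent.H96.HD hiding om
open Pool.Agent.H96.CP

/-- the area per site -/
theorem area_eq (c₁ c₂ : ℂ) (η lam : ℝ) :
    (conj (B1 c₁ η lam) * B2 c₂ η lam).im =
      v0 + lam * (ar c₁ c₂ + 3 * η) + lam ^ 2 * (conj (c₁ + η) * (c₂ + η * om)).im := by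
  have h3 : √3 ^ 2 = 3 := Real.sq_sqrt (by norm_num)
  unfold B1 B2 ar v0
  simp only [Complex.mul_im, Complex.mul_re, Complex.conj_re, Complex.conj_im, Complex.add_re,
    Complex.add_im, Complex.ofReal_re, Complex.ofReal_im, om_re, om_im, Complex.sub_re,
    Complex.sub_im, Complex.one_re, Complex.one_im]
  linear_combination (√3 / 2 + lam * c₁.re / 2 + lam * η / 2 + lam * η / 2) * h3

theorem enn_bound {m K N : ℕ} {κ η ε y a' lam : ℝ} {vbb : ℝ≥0∞} (hη : 0 < η) (hη1 : η ≤ 1)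
    (hy : 0 < y) (ha : 0 < a') (hlam : lam = Real.exp (-ε / 2) * (y / a'))
    (hvb : ENNReal.ofReal (Real.exp (κ * ((m : ℝ) + 1) ^ 2)) ≤ vbb) (hN : N = K * (m + 1) ^ 2) :
    ENNReal.ofReal ((N ! : ℕ) * Real.exp (N * (2 * Real.log (y / a') + κ -
      2 / ((m : ℝ) + 1) * Real.log (16 / η ^ 2) - ε))) ≤
    ((N ! : ℕ) : ℝ≥0∞) * (ENNReal.ofReal (lam ^ (2 * N)) *
      (volume (closedBall (0:ℂ) (η / 4)) ^ (K * (2 * m + 1)) * vbb ^ K)) := by
  have hya : 0 < y / a' := by positivity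
  have hlam0 : 0 < lam := by
    rw [hlam]
    positivity
  have h1 : ENNReal.ofReal (η ^ 2 / 16) ≤ volume (closedBall (0:ℂ) (η / 4)) := by
    rw [Complex.volume_closedBall]
    have h2 : ENNReal.ofReal (η ^ 2 / 16) = ENNReal.ofReal (η / 4) ^ 2 * 1 := by
      rw [mul_one, ← ENNReal.ofReal_pow (by positivity)]
      congr 1
      ring
    rw [h2]
    gcongr
    have h3 : (1 : NNReal) ≤ NNReal.pi := by
      rw [← NNReal.coe_le_coe]
      simp only [NNReal.coe_one, NNReal.coe_real_pi]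
      linarith [pi_gt_three]
    exact_mod_cast h3
  have h4 : ENNReal.ofReal ((N ! : ℕ) * (lam ^ (2 * N) * ((η ^ 2 / 16) ^ (K * (2 * m + 1)) *
      Real.exp (κ * ((m : ℝ) + 1) ^ 2) ^ K))) ≤
      ((N ! : ℕ) : ℝ≥0∞) * (ENNReal.ofReal (lam ^ (2 * N)) *
      (volume (closedBall (0:ℂ) (η / 4)) ^ (K * (2 * m + 1)) * vbb ^ K)) := by
    rw [ENNReal.ofReal_mul (by positivity), ENNReal.ofReal_mul (by positivity),
      ENNReal.ofReal_mul (by positivity), ENNReal.ofReal_natCast,
      ENNReal.ofReal_pow (p := η ^ 2 / 16) (by positivity),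
      ENNReal.ofReal_pow (p := Real.exp (κ * ((m : ℝ) + 1) ^ 2)) (by positivity)]
    gcongr
  refine le_trans (ENNReal.ofReal_le_ofReal ?_) h4
  refine mul_le_mul_of_nonneg_left ?_ (by positivity)
  have hNr : (N : ℝ) = K * ((m : ℝ) + 1) ^ 2 := by
    rw [hN]
    push_cast
    ring
  have e1 : lam ^ (2 * N) = Real.exp (N * (2 * Real.log (y / a') - ε)) := by
    rw [hlam, mul_pow, ← Real.exp_nat_mul]
    nth_rw 1 [← Real.exp_log hya]
    rw [← Real.exp_nat_mul, ← Real.exp_add]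
    congr 1
    push_cast
    ring
  have e2 : (η ^ 2 / 16) ^ (K * (2 * m + 1)) =
      Real.exp (-((K : ℝ) * (2 * m + 1) * Real.log (16 / η ^ 2))) := by
    have hpos : 0 < η ^ 2 / 16 := by positivity
    nth_rw 1 [← Real.exp_log hpos]
    rw [← Real.exp_nat_mul]
    congr 1
    have : Real.log (16 / η ^ 2) = -Real.log (η ^ 2 / 16) := by
      rw [← Real.log_inv]
      congr 1
      field_simp
    rw [this]
    push_cast
    ring
  have e3 : Real.exp (κ * ((m : ℝ) + 1) ^ 2) ^ K = Real.exp (N * κ) := by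
    rw [← Real.exp_nat_mul, hNr]
    congr 1
    ring
  rw [e1, e2, e3, ← Real.exp_add, ← Real.exp_add]
  apply Real.exp_le_exp.mpr
  have hlog : 0 ≤ Real.log (16 / η ^ 2) := by
    apply Real.log_nonneg
    rw [le_div_iff₀ (by positivity)]
    nlinarith
  have e4 : (N : ℝ) * (2 / ((m : ℝ) + 1) * Real.log (16 / η ^ 2)) =
      (K : ℝ) * (2 * m + 2) * Real.log (16 / η ^ 2) := by
    rw [hNr]
    field_simp
  have e5 : (K : ℝ) * (2 * m + 1) * Real.log (16 / η ^ 2) ≤
      (K : ℝ) * (2 * m + 2) * Real.log (16 / η ^ 2) := by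
    have : (K : ℝ) * (2 * m + 1) ≤ (K : ℝ) * (2 * m + 2) := by
      have : (0:ℝ) ≤ K := Nat.cast_nonneg K
      nlinarith
    exact mul_le_mul_of_nonneg_right this hlog
  nlinarith [e4, e5]

theorem low : S_low := by
  intro m c₁ c₂ κ η ε hm hc hη hη1 hε hvb
  obtain ⟨V, hV1, hV⟩ := Vs_bdd m c₁ c₂
  have har : 0 ≤ ar c₁ c₂ := by
    obtain ⟨h0, h1, h2⟩ := hc
    unfold ar
    linarith
  set a' := ar c₁ c₂ + 3 * η with ha'
  have ha0 : 0 < a' := by positivity
  set q := Real.exp (-ε / 2) with hq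
  have hq0 : 0 < q := Real.exp_pos _
  have hq1 : q < 1 := by
    rw [hq, Real.exp_lt_one_iff]
    linarith
  set C := ‖c₁ + η‖ + ‖c₂ + η * om‖ with hC
  have hC0 : 0 ≤ C := by positivity
  set δ := (conj (c₁ + η) * (c₂ + η * om)).im with hδ
  have hv0 : 0 < v0 := by
    unfold v0
    positivity
  have hv01 : 1 < v0 := by
    unfold v0
    have : 1 < √3 := by
      rw [Real.lt_sqrt (by norm_num)]
      norm_num
    linarith
  refine ⟨min 1 (min (a' / (4 * C + 2 * V)) ((1 - q) * a' ^ 2 / (2 * |δ| + 1))), ?_, ?_⟩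
  · have : 0 < 1 - q := by linarith
    have h2 : 0 < 4 * C + 2 * V := by linarith
    positivity
  intro y hy hy0
  have hy1 : y < 1 := lt_of_lt_of_le hy0 (min_le_left _ _)
  have hy2 : y < a' / (4 * C + 2 * V) :=
    lt_of_lt_of_le hy0 ((min_le_right _ _).trans (min_le_left _ _))
  have hy3 : y < (1 - q) * a' ^ 2 / (2 * |δ| + 1) :=
    lt_of_lt_of_le hy0 ((min_le_right _ _).trans (min_le_right _ _))
  set lam := q * (y / a') with hlam
  have hl : 0 < lam := by positivity
  have hl' : lam * (4 * C + 2 * V) ≤ 1 := by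
    have h2 : 0 < 4 * C + 2 * V := by linarith
    rw [lt_div_iff₀ h2] at hy2
    have h3 : lam ≤ y / a' := by
      rw [hlam]
      have : 0 < y / a' := by positivity
      nlinarith
    calc lam * (4 * C + 2 * V) ≤ y / a' * (4 * C + 2 * V) := by gcongr
      _ = y * (4 * C + 2 * V) / a' := by ring
      _ ≤ 1 := by
        rw [div_le_one ha0]
        exact hy2.le
  -- the area of a block
  have hlδ : lam ^ 2 * |δ| ≤ (1 - q) / 2 * y := by
    rw [lt_div_iff₀ (by positivity)] at hy3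
    have h3 : lam ^ 2 * |δ| ≤ (y / a') ^ 2 * |δ| := by
      have h4 : lam ≤ y / a' := by
        rw [hlam]
        have : 0 < y / a' := by positivity
        nlinarith
      gcongr
    refine h3.trans ?_
    have h5 : (y / a') ^ 2 * |δ| = y * (y * |δ|) / a' ^ 2 := by
      field_simp
    rw [h5, div_le_iff₀ (by positivity)]
    have h6 : y * |δ| ≤ (1 - q) * a' ^ 2 / 2 := by
      nlinarith [abs_nonneg δ]
    nlinarith
  set D0' := (conj (B1 c₁ η lam) * B2 c₂ η lam).im with hD0'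
  have hDeq : D0' = v0 + lam * a' + lam ^ 2 * δ := area_eq c₁ c₂ η lam
  have hla : lam * a' = q * y := by
    rw [hlam]
    field_simp
  have hD0u : D0' ≤ v0 + y - (1 - q) / 2 * y := by
    have h1 : lam ^ 2 * δ ≤ lam ^ 2 * |δ| := by
      gcongr
      exact le_abs_self δ
    rw [hDeq, hla]
    nlinarith
  have hD0l : 0 < D0' := by
    have h1 : -(lam ^ 2 * |δ|) ≤ lam ^ 2 * δ := by
      have := neg_abs_le δ
      nlinarith [sq_nonneg lam]
    rw [hDeq, hla]
    have h2 : (1 - q) / 2 * y ≤ 1 := by nlinarith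
    have h3 : 0 < q * y := by positivity
    linarith
  set b₁ : ℂ := ((m : ℂ) + 1) * B1 c₁ η lam with hb1
  set b₂ : ℂ := ((m : ℂ) + 1) * B2 c₂ η lam with hb2
  have hDb : (conj b₁ * b₂).im = ((m : ℝ) + 1) ^ 2 * D0' := by
    have : conj b₁ * b₂ = ((((m : ℝ) + 1) ^ 2 : ℝ) : ℂ) * (conj (B1 c₁ η lam) * B2 c₂ η lam) := by
      rw [hb1, hb2]
      simp only [map_mul, map_add, Complex.conj_natCast, map_one]
      push_cast
      ring
    rw [this, Complex.im_ofReal_mul]
  have hDb0 : 0 < (conj b₁ * b₂).im := by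
    rw [hDb]
    positivity
  set cc := ‖b₁‖ + ‖b₂‖ + lam * V with hcc
  have hcc0 : 0 ≤ cc := by positivity
  set c' := cc + ‖b₁‖ + ‖b₂‖ with hc'
  have hc'0 : 0 ≤ c' := by positivity
  set θ := (1 - q) / 2 * y / (v0 + y) with hθ
  have hθ0 : 0 < θ := by
    have : 0 < 1 - q := by linarith
    positivity
  have hlim : Tendsto (fun K : ℕ => √((v0 + y) * ((K * (m + 1) ^ 2 : ℕ) : ℝ))) atTop atTop := by
    refine tendsto_sqrt_atTop.comp ?_
    refine Tendsto.const_mul_atTop (by positivity) ?_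
    refine tendsto_natCast_atTop_atTop.comp ?_
    exact tendsto_id.atTop_mul_const' (by positivity)
  filter_upwards [hlim.eventually_ge_atTop (max (2 * c') (4 * c' / θ))] with K hK N hN
  have hNr : (N : ℝ) = K * ((m : ℝ) + 1) ^ 2 := by
    rw [hN]
    push_cast
    ring
  rw [← hN] at hK
  set L := √((v0 + y) * (N : ℝ)) with hL
  have hL1 : 2 * c' ≤ L := (le_max_left _ _).trans hK
  have hL2 : 4 * c' / θ ≤ L := (le_max_right _ _).trans hK
  have hL0 : 0 ≤ L := Real.sqrt_nonneg _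
  have hLL : L ^ 2 = (v0 + y) * N := Real.sq_sqrt (by positivity)
  obtain ⟨S, hS1, hS2⟩ := lattice_count b₁ b₂ hDb0 cc L (by rw [← hc']; exact hL1) hcc0
  rw [← hc'] at hS2
  have hcard : K ≤ S.card := by
    have h1 : (K : ℝ) * (conj b₁ * b₂).im ≤ (L - 2 * c') ^ 2 := by
      have h2 : (K : ℝ) * (conj b₁ * b₂).im = N * D0' := by
        rw [hDb, hNr]
        ring
      have h3 : (N : ℝ) * D0' ≤ L ^ 2 - θ * L ^ 2 := by
        have h4 : θ * L ^ 2 = (1 - q) / 2 * y * N := by
          rw [hLL, hθ]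
          field_simp
        rw [h4, hLL]
        have : (0:ℝ) ≤ N := Nat.cast_nonneg N
        nlinarith
      have h5 : 4 * c' * L ≤ θ * L ^ 2 := by
        rw [div_le_iff₀ hθ0] at hL2
        nlinarith
      rw [h2]
      nlinarith
    have h6 : (K : ℝ) * (conj b₁ * b₂).im ≤ S.card * (conj b₁ * b₂).im := h1.trans hS2
    exact_mod_cast le_of_mul_le_mul_right h6 hDb0
  set P : Fin K → ℤ × ℤ := fun k => (S.equivFin.symm (Fin.castLE hcard k)).val with hP
  have hPinj : Function.Injective P := by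
    intro k k' h
    have h1 := S.equivFin.symm.injective (Subtype.val_injective h)
    exact Fin.castLE_injective hcard h1
  have hPS : ∀ k, P k ∈ S := fun k => (S.equivFin.symm (Fin.castLE hcard k)).2
  have hbox : ∀ (s : Ix m K) (z : ℂ),
      ‖z - Bs P (B1 c₁ η lam) (B2 c₂ η lam) s‖ ≤ lam * V → z ∈ Sq L := by
    intro s z hz
    obtain ⟨⟨g1, g2⟩, g3, g4⟩ := hS1 _ (hPS (bk s))
    set g := ((P (bk s)).1 : ℂ) * b₁ + ((P (bk s)).2 : ℂ) * b₂ with hg
    have h1 : Bs P (B1 c₁ η lam) (B2 c₂ η lam) s =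
        g + ((la s : ℂ) * B1 c₁ η lam + (lb s : ℂ) * B2 c₂ η lam) := by
      rw [hg, hb1, hb2]
      unfold Bs p1 p2
      push_cast
      ring
    have h2 : ‖(la s : ℂ) * B1 c₁ η lam + (lb s : ℂ) * B2 c₂ η lam‖ ≤ ‖b₁‖ + ‖b₂‖ := by
      refine (norm_add_le _ _).trans ?_
      have hm1 : ‖((m : ℂ) + 1)‖ = (m : ℝ) + 1 := by
        have : ((m : ℂ) + 1) = (((m + 1 : ℕ)) : ℂ) := by push_cast; ring
        rw [this, Complex.norm_natCast]
        push_cast
        ring
      rw [hb1, hb2, norm_mul, norm_mul, norm_mul, norm_mul, Complex.norm_natCast,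
        Complex.norm_natCast, hm1]
      have hla' : ((la s : ℕ) : ℝ) ≤ (m : ℝ) + 1 := by
        have : (la s : ℝ) ≤ (m : ℝ) := by exact_mod_cast la_le s
        linarith
      have hlb' : ((lb s : ℕ) : ℝ) ≤ (m : ℝ) + 1 := by
        have : (lb s : ℝ) ≤ (m : ℝ) := by exact_mod_cast lb_le s
        linarith
      gcongr
    have h3 : ‖z - g‖ ≤ cc := by
      have : z - g = (z - Bs P (B1 c₁ η lam) (B2 c₂ η lam) s) +
          ((la s : ℂ) * B1 c₁ η lam + (lb s : ℂ) * B2 c₂ η lam) := by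
        rw [h1]
        ring
      rw [this]
      refine (norm_add_le _ _).trans ?_
      rw [hcc]
      linarith
    have hre := abs_le.mp ((Complex.abs_re_le_norm _).trans h3)
    have him := abs_le.mp ((Complex.abs_im_le_norm _).trans h3)
    rw [Complex.sub_re] at hre
    rw [Complex.sub_im] at him
    exact ⟨⟨by linarith [hre.1], by linarith [hre.2]⟩, by linarith [him.1], by linarith [him.2]⟩
  refine le_trans ?_ (vol_main hη hc hPinj hV1 (hV η K hη1) hl (by rw [← hC]; exact hl') L hbox hN)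
  exact enn_bound hη hη1 hy ha0 hlam hvb hN

end Pool.Agent.H95.CP
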