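import Pool.Agent.H96.CP.Stm

/-!
Project CP, lower bound: the number of lattice points in a square.
-/

set_option autoImplicit false

open Real Set MeasureTheory Metric Filter Topology
open scoped ENNReal Nat ComplexConjugate

namespace Pool.Agent.H95.CP

open Pool.Agent.H96.HD Pool.Agent.H96.CP

/-- the linear map with columns `b₁`, `b₂` -/
noncomputable def Tm (b₁ b₂ : ℂ) : ℂ →ₗ[ℝ] ℂ where
  toFun z := (z.re : ℂ) * b₁ + (z.im : ℂ) * b₂
  map_add' x y := by
    simp only [Complex.add_re, Complex.add_im, Complex.ofReal_add]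
    ring
  map_smul' r x := by
    simp only [Complex.real_smul, Complex.mul_re, Complex.ofReal_re, Complex.ofReal_im, zero_mul,
      sub_zero, Complex.mul_im, add_zero, Complex.ofReal_mul, RingHom.id_apply]
    ring

theorem Tm_apply (b₁ b₂ z : ℂ) : Tm b₁ b₂ z = (z.re : ℂ) * b₁ + (z.im : ℂ) * b₂ := rfl

theorem det_Tm (b₁ b₂ : ℂ) : LinearMap.det (Tm b₁ b₂) = (conj b₁ * b₂).im := by
  rw [← LinearMap.det_toMatrix Complex.basisOneI, Matrix.det_fin_two]
  simp only [LinearMap.toMatrix_apply, Complex.coe_basisOneI_repr, Complex.coe_basisOneI,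
    Tm_apply]
  simp
  ring

theorem lattice_count (b₁ b₂ : ℂ) (hD : 0 < (conj b₁ * b₂).im) (c L : ℝ)
    (hL : 2 * (c + ‖b₁‖ + ‖b₂‖) ≤ L) (hc : 0 ≤ c) :
    ∃ S : Finset (ℤ × ℤ), (∀ p ∈ S, ((p.1 : ℂ) * b₁ + (p.2 : ℂ) * b₂).re ∈ Icc c (L - c) ∧
      ((p.1 : ℂ) * b₁ + (p.2 : ℂ) * b₂).im ∈ Icc c (L - c)) ∧
      (L - 2 * (c + ‖b₁‖ + ‖b₂‖)) ^ 2 ≤ S.card * (conj b₁ * b₂).im := by
  classical
  set D := (conj b₁ * b₂).im with hDdef
  have hb1 := norm_nonneg b₁
  have hb2 := norm_nonneg b₂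
  have hL0 : 0 ≤ L := by linarith
  obtain ⟨B, hB⟩ := exists_nat_gt (2 * L * (‖b₁‖ + ‖b₂‖) / D + 1)
  set S := ((Finset.Icc (-(B:ℤ)) B) ×ˢ (Finset.Icc (-(B:ℤ)) B)).filter fun p : ℤ × ℤ =>
    ((p.1 : ℂ) * b₁ + (p.2 : ℂ) * b₂).re ∈ Icc c (L - c) ∧
      ((p.1 : ℂ) * b₁ + (p.2 : ℂ) * b₂).im ∈ Icc c (L - c) with hS
  refine ⟨S, fun p hp => (Finset.mem_filter.mp hp).2, ?_⟩
  set ρ := ‖b₁‖ + ‖b₂‖ with hρ
  set cell : ℤ × ℤ → Set ℂ := fun p =>
    {w | w.re ∈ Icc (p.1 : ℝ) (p.1 + 1) ∧ w.im ∈ Icc (p.2 : ℝ) (p.2 + 1)} with hcell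
  have hcov : {w : ℂ | w.re ∈ Icc (c + ρ) (L - (c + ρ)) ∧ w.im ∈ Icc (c + ρ) (L - (c + ρ))} ⊆
      Tm b₁ b₂ '' (⋃ p ∈ S, cell p) := by
    rintro z ⟨hz1, hz2⟩
    set s := (conj z * b₂).im / D with hs
    set t := (conj b₁ * z).im / D with ht
    have hzn : ‖z‖ ≤ 2 * L := by
      refine (Complex.norm_le_abs_re_add_abs_im z).trans ?_
      rw [abs_of_nonneg (by linarith [hz1.1]), abs_of_nonneg (by linarith [hz2.1])]
      linarith [hz1.2, hz2.2]
    have hsb : |s| ≤ 2 * L * ρ / D := by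
      rw [hs, abs_div, abs_of_pos hD]
      refine div_le_div_of_nonneg_right ?_ hD.le
      refine (Complex.abs_im_le_norm _).trans ?_
      rw [norm_mul, Complex.norm_conj]
      have : ‖z‖ * ‖b₂‖ ≤ 2 * L * ‖b₂‖ := by gcongr
      have h2 : 2 * L * ‖b₂‖ ≤ 2 * L * ρ := by
        gcongr
        linarith
      linarith
    have htb : |t| ≤ 2 * L * ρ / D := by
      rw [ht, abs_div, abs_of_pos hD]
      refine div_le_div_of_nonneg_right ?_ hD.le
      refine (Complex.abs_im_le_norm _).trans ?_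
      rw [norm_mul, Complex.norm_conj]
      have : ‖b₁‖ * ‖z‖ ≤ ‖b₁‖ * (2 * L) := by gcongr
      have h2 : 2 * L * ‖b₁‖ ≤ 2 * L * ρ := by
        gcongr
        linarith
      linarith
    have hTz : Tm b₁ b₂ ⟨s, t⟩ = z := by
      rw [Tm_apply]
      simp only
      have h1 : (D : ℝ) = b₁.re * b₂.im - b₁.im * b₂.re := by
        rw [hDdef]
        simp
        ring
      apply Complex.ext
      · simp only [Complex.add_re, Complex.mul_re, Complex.ofReal_re, Complex.ofReal_im, zero_mul,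
          sub_zero]
        rw [hs, ht]
        simp only [Complex.mul_im, Complex.conj_re, Complex.conj_im]
        field_simp
        rw [h1]
        ring
      · simp only [Complex.add_im, Complex.mul_im, Complex.ofReal_re, Complex.ofReal_im, zero_mul,
          add_zero]
        rw [hs, ht]
        simp only [Complex.mul_im, Complex.conj_re, Complex.conj_im]
        field_simp
        rw [h1]
        ring
    refine ⟨⟨s, t⟩, ?_, hTz⟩
    simp only [mem_iUnion, exists_prop]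
    refine ⟨(⌊s⌋, ⌊t⌋), ?_, ?_⟩
    · have hfs := Int.floor_le s
      have hfs' := (Int.lt_floor_add_one s).le
      have hft := Int.floor_le t
      have hft' := (Int.lt_floor_add_one t).le
      have hsb' := abs_le.mp hsb
      have htb' := abs_le.mp htb
      rw [hS, Finset.mem_filter]
      refine ⟨?_, ?_⟩
      · simp only [Finset.mem_product, Finset.mem_Icc]
        refine ⟨⟨?_, ?_⟩, ?_, ?_⟩
        · have : (-(B:ℝ)) ≤ ⌊s⌋ := by linarith [hsb'.1]
          exact_mod_cast this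
        · have : (⌊s⌋ : ℝ) ≤ B := by linarith [hsb'.2]
          exact_mod_cast this
        · have : (-(B:ℝ)) ≤ ⌊t⌋ := by linarith [htb'.1]
          exact_mod_cast this
        · have : (⌊t⌋ : ℝ) ≤ B := by linarith [htb'.2]
          exact_mod_cast this
      · have hdiff : ‖((⌊s⌋ : ℂ) * b₁ + (⌊t⌋ : ℂ) * b₂) - z‖ ≤ ρ := by
          have h1 : ((⌊s⌋ : ℂ) * b₁ + (⌊t⌋ : ℂ) * b₂) - z =
              (((⌊s⌋ : ℝ) - s : ℝ) : ℂ) * b₁ + (((⌊t⌋ : ℝ) - t : ℝ) : ℂ) * b₂ := by
            rw [← hTz, Tm_apply]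
            push_cast
            ring
          rw [h1]
          refine (norm_add_le _ _).trans ?_
          rw [norm_mul, norm_mul, Complex.norm_real, Complex.norm_real, Real.norm_eq_abs,
            Real.norm_eq_abs]
          have h2 : |(⌊s⌋ : ℝ) - s| ≤ 1 := by
            rw [abs_le]
            constructor <;> linarith
          have h3 : |(⌊t⌋ : ℝ) - t| ≤ 1 := by
            rw [abs_le]
            constructor <;> linarith
          have h4 : |(⌊s⌋ : ℝ) - s| * ‖b₁‖ ≤ 1 * ‖b₁‖ := by gcongr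
          have h5 : |(⌊t⌋ : ℝ) - t| * ‖b₂‖ ≤ 1 * ‖b₂‖ := by gcongr
          linarith
        have hre := abs_le.mp ((Complex.abs_re_le_norm _).trans hdiff)
        have him := abs_le.mp ((Complex.abs_im_le_norm _).trans hdiff)
        rw [Complex.sub_re] at hre
        rw [Complex.sub_im] at him
        simp only [mem_Icc] at hz1 hz2 ⊢
        exact ⟨⟨by linarith [hre.1, hz1.1], by linarith [hre.2, hz1.2]⟩,
          ⟨by linarith [him.1, hz2.1], by linarith [him.2, hz2.2]⟩⟩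
    · exact ⟨⟨Int.floor_le s, (Int.lt_floor_add_one s).le⟩, Int.floor_le t,
        (Int.lt_floor_add_one t).le⟩
  have hvol := measure_mono (μ := (volume : Measure ℂ)) hcov
  rw [volume_rect, Measure.addHaar_image_linearMap, det_Tm, ← hDdef, abs_of_pos hD] at hvol
  have h1 : volume (⋃ p ∈ S, cell p) ≤ (S.card : ℝ≥0∞) := by
    refine (measure_biUnion_finset_le S cell).trans ?_
    have : ∀ p ∈ S, volume (cell p) = 1 := by
      intro p _
      rw [hcell]
      simp only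
      rw [volume_rect]
      simp
    rw [Finset.sum_congr rfl this]
    simp
  have h2 : ENNReal.ofReal (L - (c + ρ) - (c + ρ)) * ENNReal.ofReal (L - (c + ρ) - (c + ρ)) ≤
      ENNReal.ofReal D * (S.card : ℝ≥0∞) := hvol.trans (by gcongr)
  rw [← ENNReal.ofReal_mul (by linarith), ← ENNReal.ofReal_natCast, ← ENNReal.ofReal_mul hD.le,
    ENNReal.ofReal_le_ofReal_iff (by positivity)] at h2
  have h3 : L - 2 * (c + ‖b₁‖ + ‖b₂‖) = L - (c + ρ) - (c + ρ) := by
    rw [hρ]
    ring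
  rw [h3, sq]
  linarith

end Pool.Agent.H95.CP
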