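import Pool.Agent.H96.CP.Stm

/-!
Project CP, lower bound: geometry of the tiling.
-/

set_option autoImplicit false

open Real Set MeasureTheory Metric Filter Topology
open scoped ENNReal Nat ComplexConjugate

namespace Pool.Agent.H95.CP

open Pool.Agent.H96.HD hiding om
open Pool.Agent.H96.CP

/-! ## Sites -/

/-- the sites: interior sites and boundary sites of the blocks -/
abbrev Ix (m K : ℕ) : Type := (Fin K × (Fin m × Fin m)) ⊕ (Fin K × Fin (2 * m + 1))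

/-- first local coordinate -/
def la {m K : ℕ} : Ix m K → ℕ
  | .inl p => p.2.1 + 1
  | .inr p => if p.2.val ≤ m then p.2.val else 0

/-- second local coordinate -/
def lb {m K : ℕ} : Ix m K → ℕ
  | .inl p => p.2.2 + 1
  | .inr p => if p.2.val ≤ m then 0 else p.2.val - m

/-- the block -/
def bk {m K : ℕ} : Ix m K → Fin K
  | .inl p => p.1
  | .inr p => p.1

/-- the global coordinates -/
def p1 {m K : ℕ} (P : Fin K → ℤ × ℤ) (s : Ix m K) : ℤ := ((m : ℤ) + 1) * (P (bk s)).1 + la s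

def p2 {m K : ℕ} (P : Fin K → ℤ × ℤ) (s : Ix m K) : ℤ := ((m : ℤ) + 1) * (P (bk s)).2 + lb s

theorem la_le {m K : ℕ} (s : Ix m K) : la s ≤ m := by
  rcases s with ⟨k, a, b⟩ | ⟨k, t⟩
  · simp only [la]
    omega
  · simp only [la]
    split_ifs <;> omega

theorem lb_le {m K : ℕ} (s : Ix m K) : lb s ≤ m := by
  rcases s with ⟨k, a, b⟩ | ⟨k, t⟩
  · simp only [lb]
    omega
  · simp only [lb]
    split_ifs
    · omega
    · have := t.2
      omega

theorem ix_ext {m K : ℕ} {s t : Ix m K} (h0 : bk s = bk t) (h1 : la s = la t) (h2 : lb s = lb t) :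
    s = t := by
  rcases s with ⟨k, a, b⟩ | ⟨k, u⟩ <;> rcases t with ⟨k', a', b'⟩ | ⟨k', u'⟩
  · simp only [bk, la, lb] at h0 h1 h2
    subst h0
    congr 2
    ext <;> simp <;> omega
  · exfalso
    simp only [la, lb] at h1 h2
    split_ifs at h1 h2
  · exfalso
    simp only [la, lb] at h1 h2
    split_ifs at h1 h2
  · simp only [bk, la, lb] at h0 h1 h2
    subst h0
    congr 2
    ext
    split_ifs at h1 h2 <;> omega

theorem divmod {m : ℕ} {x y : ℤ} {a b : ℕ} (ha : a ≤ m) (hb : b ≤ m)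
    (h : ((m : ℤ) + 1) * x + a = ((m : ℤ) + 1) * y + b) : x = y ∧ a = b := by
  have h1 : ((m : ℤ) + 1) ∣ (b : ℤ) - a := ⟨x - y, by linarith⟩
  have h2 : (b : ℤ) - a = 0 := by
    refine Int.eq_zero_of_abs_lt_dvd h1 ?_
    rw [abs_lt]
    omega
  have h3 : ((m : ℤ) + 1) * (x - y) = 0 := by linarith
  have h4 : x - y = 0 := by
    rcases mul_eq_zero.mp h3 with h5 | h5
    · omega
    · exact h5
  omega

theorem pos_inj {m K : ℕ} {P : Fin K → ℤ × ℤ} (hP : Function.Injective P) {s t : Ix m K}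
    (h1 : p1 P s = p1 P t) (h2 : p2 P s = p2 P t) : s = t := by
  obtain ⟨e1, e2⟩ := divmod (la_le s) (la_le t) h1
  obtain ⟨e3, e4⟩ := divmod (lb_le s) (lb_le t) h2
  exact ix_ext (hP (Prod.ext e1 e3)) e2 e4

/-! ## Elongations -/

/-- the displacements -/
def Vs (m K : ℕ) (c₁ c₂ : ℂ) (η : ℝ) : Set (Ix m K → ℂ) :=
  {v | (∀ k, (fun p : Fin m × Fin m => v (.inl (k, p)) + aff c₁ c₂ (p.1 + 1) (p.2 + 1)) ∈
    Kb m (aff c₁ c₂)) ∧ ∀ q, ‖v (.inr q)‖ ≤ η / 4}

theorem pos_aff {c₁ c₂ : ℂ} (h : PosA c₁ c₂) (n : ℕ) : Pos n (aff c₁ c₂) := by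
  obtain ⟨h0, h1, h2⟩ := h
  refine ⟨fun i j _ _ => ?_, fun i j _ _ => ?_, fun i j _ _ => ?_⟩
  · unfold D0 aff
    have : ((i + 1 : ℕ) : ℂ) * c₁ + (j : ℂ) * c₂ - ((i : ℂ) * c₁ + (j : ℂ) * c₂) = c₁ := by
      push_cast
      ring
    rw [this]
    exact h0
  · unfold D1 aff
    have : (i : ℂ) * c₁ + ((j + 1 : ℕ) : ℂ) * c₂ - ((i : ℂ) * c₁ + (j : ℂ) * c₂) = c₂ := by
      push_cast
      ring
    rw [this]
    exact h1
  · unfold D2 aff
    have : (i : ℂ) * c₁ + ((j + 1 : ℕ) : ℂ) * c₂ - (((i + 1 : ℕ) : ℂ) * c₁ + (j : ℂ) * c₂) =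
        c₂ - c₁ := by
      push_cast
      ring
    rw [this]
    exact h2

theorem aff_s1 (c₁ c₂ : ℂ) (a b : ℕ) : aff c₁ c₂ (a + 1) b = aff c₁ c₂ a b + c₁ := by
  unfold aff
  push_cast
  ring

theorem aff_s2 (c₁ c₂ : ℂ) (a b : ℕ) : aff c₁ c₂ a (b + 1) = aff c₁ c₂ a b + c₂ := by
  unfold aff
  push_cast
  ring

theorem glue_aff (m : ℕ) (b : ℕ → ℕ → ℂ) :
    glue m b (fun p : Fin m × Fin m => b (p.1 + 1) (p.2 + 1)) = b := by
  funext i j
  unfold glue
  split_ifs with h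
  · simp only
    congr 1 <;> omega
  · rfl

theorem rep {m K : ℕ} {c₁ c₂ : ℂ} {η : ℝ} (hη : 0 < η) (hc : PosA c₁ c₂) {P : Fin K → ℤ × ℤ}
    (hP : Function.Injective P) {v : Ix m K → ℂ} (hv : v ∈ Vs m K c₁ c₂ η) (Q : ℤ × ℤ) :
    ∃ w ∈ Kb m (aff c₁ c₂), ∀ (s : Ix m K) (a b : ℕ), a ≤ m + 1 → b ≤ m + 1 →
      p1 P s = ((m : ℤ) + 1) * Q.1 + a → p2 P s = ((m : ℤ) + 1) * Q.2 + b →
      ‖v s + aff c₁ c₂ a b - glue m (aff c₁ c₂) w a b‖ ≤ η / 4 := by
  classical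
  -- a boundary site
  have hbd : ∀ (w : Fin m × Fin m → ℂ) (q : Fin K × Fin (2 * m + 1)) (a b : ℕ), a ≤ m + 1 →
      b ≤ m + 1 → p1 P (.inr q : Ix m K) = ((m : ℤ) + 1) * Q.1 + a →
      p2 P (.inr q : Ix m K) = ((m : ℤ) + 1) * Q.2 + b →
      ‖v (.inr q) + aff c₁ c₂ a b - glue m (aff c₁ c₂) w a b‖ ≤ η / 4 := by
    intro w q a b ha hb h1 h2
    have hg : glue m (aff c₁ c₂) w a b = aff c₁ c₂ a b := by
      unfold glue
      rw [dif_neg]
      rintro ⟨⟨ha1, ha2⟩, hb1, hb2⟩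
      obtain ⟨-, e1⟩ := divmod (la_le _) ha2 h1
      obtain ⟨-, e2⟩ := divmod (lb_le _) hb2 h2
      simp only [la, lb] at e1 e2
      split_ifs at e1 e2 <;> omega
    rw [hg, add_sub_cancel_right]
    exact hv.2 q
  -- an interior site
  have hin : ∀ (q : Fin K × (Fin m × Fin m)) (a b : ℕ), a ≤ m + 1 →
      b ≤ m + 1 → p1 P (.inl q : Ix m K) = ((m : ℤ) + 1) * Q.1 + a →
      p2 P (.inl q : Ix m K) = ((m : ℤ) + 1) * Q.2 + b →
      P q.1 = Q ∧ a = q.2.1 + 1 ∧ b = q.2.2 + 1 := by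
    intro q a b ha hb h1 h2
    have ha' : a ≤ m := by
      by_contra hcon
      have ha2 : a = m + 1 := by omega
      have h3 : p1 P (.inl q : Ix m K) = ((m : ℤ) + 1) * (Q.1 + 1) + ((0 : ℕ) : ℤ) := by
        rw [h1, ha2]
        push_cast
        ring
      obtain ⟨-, e1⟩ := divmod (la_le _) (Nat.zero_le m) h3
      simp only [la] at e1
      omega
    have hb' : b ≤ m := by
      by_contra hcon
      have hb2 : b = m + 1 := by omega
      have h3 : p2 P (.inl q : Ix m K) = ((m : ℤ) + 1) * (Q.2 + 1) + ((0 : ℕ) : ℤ) := by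
        rw [h2, hb2]
        push_cast
        ring
      obtain ⟨-, e1⟩ := divmod (lb_le _) (Nat.zero_le m) h3
      simp only [lb] at e1
      omega
    obtain ⟨e1, e2⟩ := divmod (la_le _) ha' h1
    obtain ⟨e3, e4⟩ := divmod (lb_le _) hb' h2
    exact ⟨Prod.ext e1 e3, e2.symm, e4.symm⟩
  by_cases hQ : ∃ k, P k = Q
  · obtain ⟨k, hk⟩ := hQ
    refine ⟨_, hv.1 k, fun s a b ha hb h1 h2 => ?_⟩
    rcases s with q | q
    · obtain ⟨e1, e2, e3⟩ := hin q a b ha hb h1 h2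
      have hqk : q.1 = k := hP (e1.trans hk.symm)
      have h3 := q.2.1.2
      have h4 := q.2.2.2
      have hg : glue m (aff c₁ c₂) (fun p : Fin m × Fin m => v (.inl (k, p)) +
          aff c₁ c₂ (p.1 + 1) (p.2 + 1)) a b = v (.inl q) + aff c₁ c₂ a b := by
        unfold glue
        rw [dif_pos ⟨⟨by omega, by omega⟩, by omega, by omega⟩]
        simp only
        congr 1
        · congr 2
          rw [← hqk]
          ext <;> simp <;> omega
        · congr 1 <;> omega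
      rw [hg, sub_self, norm_zero]
      positivity
    · exact hbd _ q a b ha hb h1 h2
  · refine ⟨fun p => aff c₁ c₂ (p.1 + 1) (p.2 + 1), ?_, fun s a b ha hb h1 h2 => ?_⟩
    · show Pos (m + 1) (glue m (aff c₁ c₂) _)
      rw [glue_aff]
      exact pos_aff hc _
    · rcases s with q | q
      · obtain ⟨e1, -, -⟩ := hin q a b ha hb h1 h2
        exact absurd ⟨q.1, e1⟩ hQ
      · exact hbd _ q a b ha hb h1 h2

theorem om_re : om.re = 1 / 2 := rfl

theorem om_im : om.im = √3 / 2 := rfl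

theorem norm_sq_om (a b : ℝ) : ‖(a : ℂ) + b * om‖ ^ 2 = a ^ 2 + a * b + b ^ 2 := by
  have h3 : √3 ^ 2 = 3 := Real.sq_sqrt (by norm_num)
  rw [Complex.sq_norm, Complex.normSq_apply]
  simp only [Complex.add_re, Complex.ofReal_re, Complex.mul_re, Complex.ofReal_im, zero_mul,
    sub_zero, Complex.add_im, Complex.mul_im, add_zero, zero_add, om_re, om_im]
  linear_combination (b ^ 2 / 4) * h3

theorem norm_om : ‖om‖ = 1 := by
  have h := norm_sq_om 0 1
  simp only [Complex.ofReal_zero, Complex.ofReal_one, zero_add, one_mul] at h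
  have h1 : ‖om‖ ^ 2 = 1 := by rw [h]; norm_num
  exact (pow_eq_one_iff_of_nonneg (norm_nonneg _) two_ne_zero).mp h1

theorem norm_om' : ‖om - 1‖ = 1 := by
  have h := norm_sq_om (-1) 1
  have e : ((-1 : ℝ) : ℂ) + ((1 : ℝ) : ℂ) * om = om - 1 := by
    push_cast
    ring
  rw [e] at h
  have h1 : ‖om - 1‖ ^ 2 = 1 := by rw [h]; norm_num
  exact (pow_eq_one_iff_of_nonneg (norm_nonneg _) two_ne_zero).mp h1

theorem conj_mul_om : (conj om * om : ℂ) = 1 := by
  rw [mul_comm, Complex.mul_conj, Complex.normSq_eq_norm_sq, norm_om]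
  simp

theorem conj_mul_om' : (conj (om - 1) * (om - 1) : ℂ) = 1 := by
  rw [mul_comm, Complex.mul_conj, Complex.normSq_eq_norm_sq, norm_om']
  simp

/-- perturbation of a direction by at most `η/4` at each end -/
theorem edge_aux {e z g p q : ℂ} {η : ℝ} (he : ‖e‖ = 1) (hη : 0 < η)
    (h0 : 0 ≤ (conj e * g).re) (hp : ‖p‖ ≤ η / 4) (hq : ‖q‖ ≤ η / 4)
    (hz : z = g + p - q + η * e) : 0 ≤ (conj e * z).re := by
  have h1 : (conj e * e : ℂ) = 1 := by
    rw [mul_comm, Complex.mul_conj, Complex.normSq_eq_norm_sq, he]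
    simp
  have h2 : conj e * z = conj e * g + conj e * p - conj e * q + η := by
    rw [hz]
    linear_combination (η : ℂ) * h1
  rw [h2]
  simp only [Complex.add_re, Complex.sub_re, Complex.ofReal_re]
  have h3 : |(conj e * p).re| ≤ η / 4 := by
    refine (Complex.abs_re_le_norm _).trans ?_
    rw [norm_mul, Complex.norm_conj, he, one_mul]
    exact hp
  have h4 : |(conj e * q).re| ≤ η / 4 := by
    refine (Complex.abs_re_le_norm _).trans ?_
    rw [norm_mul, Complex.norm_conj, he, one_mul]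
    exact hq
  have h5 := abs_le.mp h3
  have h6 := abs_le.mp h4
  linarith [h5.1, h6.2]

section

variable {m K : ℕ} {c₁ c₂ : ℂ} {η : ℝ} {P : Fin K → ℤ × ℤ} {v : Ix m K → ℂ}

theorem floor_rep (m : ℕ) (i : ℤ) : ∃ (Q : ℤ) (a : ℕ), a ≤ m ∧ i = ((m : ℤ) + 1) * Q + a := by
  have hm : (0 : ℤ) < (m : ℤ) + 1 := by omega
  refine ⟨i / ((m : ℤ) + 1), (i % ((m : ℤ) + 1)).toNat, ?_, ?_⟩
  · have h1 := Int.emod_lt_of_pos i hm
    have h2 := Int.emod_nonneg i hm.ne'
    omega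
  · have h2 := Int.emod_nonneg i hm.ne'
    rw [Int.toNat_of_nonneg h2]
    exact (Int.mul_ediv_add_emod i _).symm

theorem elong0 (hη : 0 < η) (hc : PosA c₁ c₂) (hP : Function.Injective P)
    (hv : v ∈ Vs m K c₁ c₂ η) {s t : Ix m K} (h1 : p1 P t = p1 P s + 1) (h2 : p2 P t = p2 P s) :
    0 ≤ (v t - v s + (c₁ + η)).re := by
  obtain ⟨Q1, a, ha, hQ1⟩ := floor_rep m (p1 P s)
  obtain ⟨Q2, b, hb, hQ2⟩ := floor_rep m (p2 P s)
  obtain ⟨w, hw, hrep⟩ := rep hη hc hP hv (Q1, Q2)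
  have r1 := hrep s a b (by omega) (by omega) hQ1 hQ2
  have r2 := hrep t (a + 1) b (by omega) (by omega) (by rw [h1, hQ1]; push_cast; ring)
    (by rw [h2, hQ2])
  have hw' : Pos (m + 1) (glue m (aff c₁ c₂) w) := hw
  have h3 := hw'.1 a b (by omega) (by omega)
  have h4 := edge_aux (e := 1) (z := v t - v s + (c₁ + η))
    (g := glue m (aff c₁ c₂) w (a + 1) b - glue m (aff c₁ c₂) w a b) norm_one hη
    (by simpa [D0] using h3) r2 r1 (by linear_combination -aff_s1 c₁ c₂ a b)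
  simpa using h4

theorem elong1 (hη : 0 < η) (hc : PosA c₁ c₂) (hP : Function.Injective P)
    (hv : v ∈ Vs m K c₁ c₂ η) {s t : Ix m K} (h1 : p1 P t = p1 P s) (h2 : p2 P t = p2 P s + 1) :
    0 ≤ (conj om * (v t - v s + (c₂ + η * om))).re := by
  obtain ⟨Q1, a, ha, hQ1⟩ := floor_rep m (p1 P s)
  obtain ⟨Q2, b, hb, hQ2⟩ := floor_rep m (p2 P s)
  obtain ⟨w, hw, hrep⟩ := rep hη hc hP hv (Q1, Q2)
  have r1 := hrep s a b (by omega) (by omega) hQ1 hQ2
  have r2 := hrep t a (b + 1) (by omega) (by omega) (by rw [h1, hQ1])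
    (by rw [h2, hQ2]; push_cast; ring)
  have hw' : Pos (m + 1) (glue m (aff c₁ c₂) w) := hw
  have h3 := hw'.2.1 a b (by omega) (by omega)
  exact edge_aux (e := om) (z := v t - v s + (c₂ + η * om))
    (g := glue m (aff c₁ c₂) w a (b + 1) - glue m (aff c₁ c₂) w a b) norm_om hη h3
    r2 r1 (by linear_combination -aff_s2 c₁ c₂ a b)

theorem elong2 (hη : 0 < η) (hc : PosA c₁ c₂) (hP : Function.Injective P)
    (hv : v ∈ Vs m K c₁ c₂ η) {s t : Ix m K} (h1 : p1 P t = p1 P s - 1)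
    (h2 : p2 P t = p2 P s + 1) :
    0 ≤ (conj (om - 1) * (v t - v s + (c₂ - c₁ + η * (om - 1)))).re := by
  obtain ⟨Q1, a, ha, hQ1⟩ := floor_rep m (p1 P t)
  obtain ⟨Q2, b, hb, hQ2⟩ := floor_rep m (p2 P s)
  obtain ⟨w, hw, hrep⟩ := rep hη hc hP hv (Q1, Q2)
  have r1 := hrep s (a + 1) b (by omega) (by omega) (by push_cast; linarith) hQ2
  have r2 := hrep t a (b + 1) (by omega) (by omega) hQ1 (by rw [h2, hQ2]; push_cast; ring)
  have hw' : Pos (m + 1) (glue m (aff c₁ c₂) w) := hw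
  have h3 := hw'.2.2 a b (by omega) (by omega)
  exact edge_aux (e := om - 1) (z := v t - v s + (c₂ - c₁ + η * (om - 1)))
    (g := glue m (aff c₁ c₂) w a (b + 1) - glue m (aff c₁ c₂) w (a + 1) b) norm_om' hη h3
    r2 r1 (by linear_combination aff_s1 c₁ c₂ a b - aff_s2 c₁ c₂ a b)

end

end Pool.Agent.H95.CP
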