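import Pool.Agent.H95.CP.Low2

/-!
Project CP, lower bound: distances.
-/

set_option autoImplicit false

open Real Set MeasureTheory Metric Filter Topology
open scoped ENNReal Nat ComplexConjugate

namespace Pool.Agent.H95.CP

open Pool.Agent.H96.HD hiding om
open Pool.Agent.H96.CP

/-! ## The displacements are bounded -/

theorem glue_in {m : ℕ} (b : ℕ → ℕ → ℂ) (w : Fin m × Fin m → ℂ) (p : Fin m × Fin m) :
    glue m b w (p.1 + 1) (p.2 + 1) = w p := by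
  have h1 := p.1.2
  have h2 := p.2.2
  unfold glue
  rw [dif_pos ⟨⟨by omega, by omega⟩, by omega, by omega⟩]
  congr 1

theorem glue_left {m : ℕ} (b : ℕ → ℕ → ℂ) (w : Fin m × Fin m → ℂ) (j : ℕ) :
    glue m b w 0 j = b 0 j := by
  unfold glue
  rw [dif_neg]
  omega

theorem glue_right {m : ℕ} (b : ℕ → ℕ → ℂ) (w : Fin m × Fin m → ℂ) (j : ℕ) :
    glue m b w (m + 1) j = b (m + 1) j := by
  unfold glue
  rw [dif_neg]
  omega

theorem glue_bot {m : ℕ} (b : ℕ → ℕ → ℂ) (w : Fin m × Fin m → ℂ) (i : ℕ) :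
    glue m b w i 0 = b i 0 := by
  unfold glue
  rw [dif_neg]
  omega

theorem glue_top {m : ℕ} (b : ℕ → ℕ → ℂ) (w : Fin m × Fin m → ℂ) (i : ℕ) :
    glue m b w i (m + 1) = b i (m + 1) := by
  unfold glue
  rw [dif_neg]
  omega

theorem mono_aux {n : ℕ} {f : ℕ → ℝ} (h : ∀ i, i < n → f i ≤ f (i + 1)) :
    ∀ i, i ≤ n → f 0 ≤ f i ∧ f i ≤ f n := by
  have h1 : ∀ i j, i ≤ j → j ≤ n → f i ≤ f j := by
    intro i j hij
    induction j, hij using Nat.le_induction with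
    | base => intro _; exact le_rfl
    | succ j hj ih => intro hn; exact (ih (by omega)).trans (h j (by omega))
  exact fun i hi => ⟨h1 0 i (by omega) hi, h1 i n hi le_rfl⟩

theorem Kb_bdd (m : ℕ) (b : ℕ → ℕ → ℂ) : ∃ V : ℝ, 0 ≤ V ∧ ∀ w ∈ Kb m b, ∀ p, ‖w p‖ ≤ V := by
  set B := ∑ i ∈ Finset.range (m + 2), ∑ j ∈ Finset.range (m + 2), ‖b i j‖ with hB
  have hB0 : ∀ i j, i ≤ m + 1 → j ≤ m + 1 → ‖b i j‖ ≤ B := by
    intro i j hi hj
    calc ‖b i j‖ ≤ ∑ j ∈ Finset.range (m + 2), ‖b i j‖ :=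
          Finset.single_le_sum (f := fun j => ‖b i j‖) (fun _ _ => norm_nonneg _)
            (Finset.mem_range.mpr (by omega))
      _ ≤ B := Finset.single_le_sum (f := fun i => ∑ j ∈ Finset.range (m + 2), ‖b i j‖)
            (fun _ _ => Finset.sum_nonneg fun _ _ => norm_nonneg _)
            (Finset.mem_range.mpr (by omega))
  have hBn : 0 ≤ B := by positivity
  refine ⟨4 * B, by positivity, fun w hw p => ?_⟩
  have hw' : Pos (m + 1) (glue m b w) := hw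
  have hp1 := p.1.2
  have hp2 := p.2.2
  have h1 := mono_aux (n := m + 1) (f := fun i => (glue m b w i (p.2 + 1)).re) (fun i hi => by
    have := hw'.1 i (p.2 + 1) hi (by omega)
    unfold D0 at this
    rw [Complex.sub_re] at this
    linarith) (p.1 + 1) (by omega)
  have h2 := mono_aux (n := m + 1) (f := fun j => (conj om * glue m b w (p.1 + 1) j).re)
    (fun j hj => by
      have := hw'.2.1 (p.1 + 1) j (by omega) hj
      unfold D1 at this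
      rw [mul_sub, Complex.sub_re] at this
      linarith) (p.2 + 1) (by omega)
  simp only [glue_in, glue_left, glue_right, glue_bot, glue_top] at h1 h2
  have e1 := abs_le.mp ((Complex.abs_re_le_norm _).trans (hB0 0 (p.2 + 1) (by omega) (by omega)))
  have e2 := abs_le.mp ((Complex.abs_re_le_norm _).trans (hB0 (m + 1) (p.2 + 1) (by omega)
    (by omega)))
  have hc : ∀ z : ℂ, ‖conj om * z‖ = ‖z‖ := by
    intro z
    rw [norm_mul, Complex.norm_conj, norm_om, one_mul]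
  have e3 := abs_le.mp ((Complex.abs_re_le_norm (conj om * b (p.1 + 1) 0)).trans
    ((hc _).le.trans (hB0 (p.1 + 1) 0 (by omega) (by omega))))
  have e4 := abs_le.mp ((Complex.abs_re_le_norm (conj om * b (p.1 + 1) (m + 1))).trans
    ((hc _).le.trans (hB0 (p.1 + 1) (m + 1) (by omega) (by omega))))
  have f1 : |(w p).re| ≤ B := abs_le.mpr ⟨by linarith [h1.1, e1.1], by linarith [h1.2, e2.2]⟩
  have f2 : |(conj om * w p).re| ≤ B :=
    abs_le.mpr ⟨by linarith [h2.1, e3.1], by linarith [h2.2, e4.2]⟩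
  have f3 : (conj om * w p).re = (w p).re / 2 + √3 / 2 * (w p).im := by
    simp only [Complex.mul_re, Complex.conj_re, Complex.conj_im, om_re, om_im]
    ring
  have h3 : 1.7 ≤ √3 := by
    rw [Real.le_sqrt' (by norm_num)]
    norm_num
  have f4 : |(w p).im| ≤ 2 * B := by
    rw [f3] at f2
    have g1 := abs_le.mp f1
    have g2 := abs_le.mp f2
    rw [abs_le]
    constructor
    · by_contra hcon
      push Not at hcon
      nlinarith [g1.2, g2.1]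
    · by_contra hcon
      push Not at hcon
      nlinarith [g1.1, g2.2]
  calc ‖w p‖ ≤ |(w p).re| + |(w p).im| := Complex.norm_le_abs_re_add_abs_im _
    _ ≤ 4 * B := by linarith

theorem Vs_bdd (m : ℕ) (c₁ c₂ : ℂ) : ∃ V : ℝ, 1 ≤ V ∧ ∀ (η : ℝ) (K : ℕ), η ≤ 1 →
    ∀ v ∈ Vs m K c₁ c₂ η, ∀ s, ‖v s‖ ≤ V := by
  obtain ⟨V, hV, h⟩ := Kb_bdd m (aff c₁ c₂)
  refine ⟨V + (m * (‖c₁‖ + ‖c₂‖)) + 1, by
    have : (0:ℝ) ≤ m * (‖c₁‖ + ‖c₂‖) := by positivity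
    linarith, fun η K hη v hv s => ?_⟩
  have h0 : (0:ℝ) ≤ m * (‖c₁‖ + ‖c₂‖) := by positivity
  rcases s with ⟨k, p⟩ | q
  · have h1 := h _ (hv.1 k) p
    have h2 : ‖aff c₁ c₂ (p.1 + 1) (p.2 + 1)‖ ≤ m * (‖c₁‖ + ‖c₂‖) := by
      unfold aff
      refine (norm_add_le _ _).trans ?_
      rw [norm_mul, norm_mul, Complex.norm_natCast, Complex.norm_natCast]
      have hp1 : (((p.1 : ℕ) + 1 : ℕ) : ℝ) ≤ m := by exact_mod_cast p.1.2
      have hp2 : (((p.2 : ℕ) + 1 : ℕ) : ℝ) ≤ m := by exact_mod_cast p.2.2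
      have g1 : (((p.1 : ℕ) + 1 : ℕ) : ℝ) * ‖c₁‖ ≤ m * ‖c₁‖ := by gcongr
      have g2 : (((p.2 : ℕ) + 1 : ℕ) : ℝ) * ‖c₂‖ ≤ m * ‖c₂‖ := by gcongr
      linarith
    have h3 : v (.inl (k, p)) = (v (.inl (k, p)) + aff c₁ c₂ (p.1 + 1) (p.2 + 1)) -
        aff c₁ c₂ (p.1 + 1) (p.2 + 1) := by ring
    rw [h3]
    refine (norm_sub_le _ _).trans ?_
    linarith
  · have := hv.2 q
    linarith

/-! ## Distances -/

/-- base positions of the sites -/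
noncomputable def Bs {m K : ℕ} (P : Fin K → ℤ × ℤ) (B₁ B₂ : ℂ) (s : Ix m K) : ℂ :=
  (p1 P s : ℂ) * B₁ + (p2 P s : ℂ) * B₂

theorem norm_coord (d₁ d₂ : ℝ) : |d₁| ≤ 2 * ‖(d₁ : ℂ) + d₂ * om‖ ∧
    |d₂| ≤ 2 * ‖(d₁ : ℂ) + d₂ * om‖ := by
  have h := norm_sq_om d₁ d₂
  constructor
  · refine abs_le_of_sq_le_sq ?_ (by positivity)
    rw [mul_pow, h]
    nlinarith [sq_nonneg (d₁ + 2 * d₂)]
  · refine abs_le_of_sq_le_sq ?_ (by positivity)
    rw [mul_pow, h]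
    nlinarith [sq_nonneg (d₂ + 2 * d₁)]

/-- base vectors are long -/
theorem base_norm {lam : ℝ} (hl : 0 ≤ lam) (c₁ c₂ : ℂ) (d₁ d₂ : ℝ) :
    (√3 - lam * (2 * (‖c₁‖ + ‖c₂‖))) * ‖(d₁ : ℂ) + d₂ * om‖ ≤
      ‖(d₁ : ℂ) * (√3 + lam * c₁) + d₂ * (√3 * om + lam * c₂)‖ := by
  obtain ⟨h1, h2⟩ := norm_coord d₁ d₂
  set z := (d₁ : ℂ) + d₂ * om with hz
  have e : (d₁ : ℂ) * (√3 + lam * c₁) + d₂ * (√3 * om + lam * c₂) =
      (√3 : ℝ) * z - -((lam : ℂ) * (d₁ * c₁ + d₂ * c₂)) := by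
    rw [hz]
    ring
  rw [e]
  have h3 : ‖-((lam : ℂ) * (d₁ * c₁ + d₂ * c₂))‖ ≤ lam * (2 * (‖c₁‖ + ‖c₂‖)) * ‖z‖ := by
    rw [norm_neg, norm_mul, Complex.norm_real, Real.norm_eq_abs, abs_of_nonneg hl]
    have h4 : ‖(d₁ : ℂ) * c₁ + d₂ * c₂‖ ≤ (2 * (‖c₁‖ + ‖c₂‖)) * ‖z‖ := by
      refine (norm_add_le _ _).trans ?_
      rw [norm_mul, norm_mul, Complex.norm_real, Complex.norm_real, Real.norm_eq_abs,
        Real.norm_eq_abs]
      have g1 : |d₁| * ‖c₁‖ ≤ (2 * ‖z‖) * ‖c₁‖ := by gcongr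
      have g2 : |d₂| * ‖c₂‖ ≤ (2 * ‖z‖) * ‖c₂‖ := by gcongr
      linarith
    calc lam * ‖(d₁ : ℂ) * c₁ + d₂ * c₂‖ ≤ lam * ((2 * (‖c₁‖ + ‖c₂‖)) * ‖z‖) := by gcongr
      _ = _ := by ring
  have h4 : ‖((√3 : ℝ) : ℂ) * z‖ = √3 * ‖z‖ := by
    rw [norm_mul, Complex.norm_real, Real.norm_eq_abs, abs_of_nonneg (by positivity)]
  have h5 := norm_sub_norm_le (((√3 : ℝ) : ℂ) * z) (-((lam : ℂ) * (d₁ * c₁ + d₂ * c₂)))
  linarith

theorem int_cases {d₁ d₂ : ℤ} (h : d₁ ^ 2 + d₁ * d₂ + d₂ ^ 2 ≤ 2) :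
    (d₁ = 0 ∧ d₂ = 0) ∨ (d₁ = 1 ∧ d₂ = 0) ∨ (d₁ = -1 ∧ d₂ = 0) ∨ (d₁ = 0 ∧ d₂ = 1) ∨
      (d₁ = 0 ∧ d₂ = -1) ∨ (d₁ = 1 ∧ d₂ = -1) ∨ (d₁ = -1 ∧ d₂ = 1) := by
  have h1 : d₁ ^ 2 ≤ 2 := by nlinarith [sq_nonneg (d₁ + 2 * d₂)]
  have h2 : d₂ ^ 2 ≤ 2 := by nlinarith [sq_nonneg (d₂ + 2 * d₁)]
  have h3 : d₁ ≤ 1 := by nlinarith
  have h4 : -1 ≤ d₁ := by nlinarith
  have h5 : d₂ ≤ 1 := by nlinarith
  have h6 : -1 ≤ d₂ := by nlinarith
  interval_cases d₁ <;> interval_cases d₂ <;> simp_all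

theorem sep_dir {e z : ℂ} (he : ‖e‖ = 1) {lam : ℝ} (hl : 0 ≤ lam) (hz : 0 ≤ (conj e * z).re) :
    √3 ≤ ‖(√3 : ℝ) * e + lam * z‖ := by
  have h1 : (conj e * e : ℂ) = 1 := by
    rw [mul_comm, Complex.mul_conj, Complex.normSq_eq_norm_sq, he]
    simp
  have h2 : ‖conj e * ((√3 : ℝ) * e + lam * z)‖ = ‖((√3 : ℝ) : ℂ) * e + lam * z‖ := by
    rw [norm_mul, Complex.norm_conj, he, one_mul]
  rw [← h2]
  have h3 : conj e * (((√3 : ℝ) : ℂ) * e + lam * z) = ((√3 : ℝ) : ℂ) + lam * (conj e * z) := by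
    linear_combination ((√3 : ℝ) : ℂ) * h1
  rw [h3]
  refine le_trans ?_ (Complex.re_le_norm _)
  rw [Complex.add_re, Complex.ofReal_re, Complex.re_ofReal_mul]
  have := mul_nonneg hl hz
  linarith

section

variable {m K : ℕ} {c₁ c₂ : ℂ} {η lam V : ℝ} {P : Fin K → ℤ × ℤ} {v : Ix m K → ℂ}

/-- the base vectors of the lattice -/
noncomputable def B1 (c₁ : ℂ) (η lam : ℝ) : ℂ := √3 + lam * (c₁ + η)

noncomputable def B2 (c₂ : ℂ) (η lam : ℝ) : ℂ := √3 * om + lam * (c₂ + η * om)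

theorem sep_main (hη : 0 < η) (hc : PosA c₁ c₂) (hP : Function.Injective P)
    (hv : v ∈ Vs m K c₁ c₂ η) (hV : ∀ s, ‖v s‖ ≤ V) (hl : 0 ≤ lam)
    (hl' : lam * (4 * (‖c₁ + η‖ + ‖c₂ + η * om‖) + 2 * V) ≤ 1) {s t : Ix m K} (hst : s ≠ t) :
    √3 ≤ ‖(Bs P (B1 c₁ η lam) (B2 c₂ η lam) t + lam * v t) -
      (Bs P (B1 c₁ η lam) (B2 c₂ η lam) s + lam * v s)‖ := by
  set C := ‖c₁ + η‖ + ‖c₂ + η * om‖ with hC
  have hC0 : 0 ≤ C := by positivity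
  have hV0 : 0 ≤ V := (norm_nonneg _).trans (hV s)
  -- edges
  have key0 : ∀ s t : Ix m K, p1 P t = p1 P s + 1 → p2 P t = p2 P s →
      √3 ≤ ‖(Bs P (B1 c₁ η lam) (B2 c₂ η lam) t + lam * v t) -
        (Bs P (B1 c₁ η lam) (B2 c₂ η lam) s + lam * v s)‖ := by
    intro s t h1 h2
    have h3 := elong0 hη hc hP hv h1 h2
    have h4 := sep_dir (e := 1) norm_one hl (z := v t - v s + (c₁ + η)) (by simpa using h3)
    refine h4.trans (le_of_eq ?_)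
    congr 1
    unfold Bs B1 B2
    rw [h1, h2]
    push_cast
    ring
  have key1 : ∀ s t : Ix m K, p1 P t = p1 P s → p2 P t = p2 P s + 1 →
      √3 ≤ ‖(Bs P (B1 c₁ η lam) (B2 c₂ η lam) t + lam * v t) -
        (Bs P (B1 c₁ η lam) (B2 c₂ η lam) s + lam * v s)‖ := by
    intro s t h1 h2
    have h3 := elong1 hη hc hP hv h1 h2
    have h4 := sep_dir (e := om) norm_om hl (z := v t - v s + (c₂ + η * om)) h3
    refine h4.trans (le_of_eq ?_)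
    congr 1
    unfold Bs B1 B2
    rw [h1, h2]
    push_cast
    ring
  have key2 : ∀ s t : Ix m K, p1 P t = p1 P s - 1 → p2 P t = p2 P s + 1 →
      √3 ≤ ‖(Bs P (B1 c₁ η lam) (B2 c₂ η lam) t + lam * v t) -
        (Bs P (B1 c₁ η lam) (B2 c₂ η lam) s + lam * v s)‖ := by
    intro s t h1 h2
    have h3 := elong2 hη hc hP hv h1 h2
    have h4 := sep_dir (e := om - 1) norm_om' hl (z := v t - v s + (c₂ - c₁ + η * (om - 1))) h3
    refine h4.trans (le_of_eq ?_)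
    congr 1
    unfold Bs B1 B2
    rw [h1, h2]
    push_cast
    ring
  set d₁ := p1 P t - p1 P s with hd1
  set d₂ := p2 P t - p2 P s with hd2
  by_cases hsmall : d₁ ^ 2 + d₁ * d₂ + d₂ ^ 2 ≤ 2
  · rcases int_cases hsmall with ⟨h1, h2⟩ | ⟨h1, h2⟩ | ⟨h1, h2⟩ | ⟨h1, h2⟩ | ⟨h1, h2⟩ |
      ⟨h1, h2⟩ | ⟨h1, h2⟩
    · exact absurd (pos_inj hP (by omega) (by omega)) hst
    · exact key0 s t (by omega) (by omega)
    · rw [norm_sub_rev]
      exact key0 t s (by omega) (by omega)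
    · exact key1 s t (by omega) (by omega)
    · rw [norm_sub_rev]
      exact key1 t s (by omega) (by omega)
    · rw [norm_sub_rev]
      exact key2 t s (by omega) (by omega)
    · exact key2 s t (by omega) (by omega)
  · push Not at hsmall
    have h3 : 3 ≤ d₁ ^ 2 + d₁ * d₂ + d₂ ^ 2 := by omega
    have h3' : (3:ℝ) ≤ (d₁ : ℝ) ^ 2 + d₁ * d₂ + d₂ ^ 2 := by exact_mod_cast h3
    have h4 := base_norm hl (c₁ + η) (c₂ + η * om) (d₁ : ℝ) (d₂ : ℝ)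
    rw [← hC] at h4
    have h5 : √3 ≤ ‖(((d₁ : ℤ) : ℝ) : ℂ) + (((d₂ : ℤ) : ℝ) : ℂ) * om‖ := by
      rw [Real.sqrt_le_left (norm_nonneg _), norm_sq_om]
      exact h3'
    have hs3 : 1.7 ≤ √3 := by
      rw [Real.le_sqrt' (by norm_num)]
      norm_num
    have hs33 : √3 * √3 = 3 := Real.mul_self_sqrt (by norm_num)
    have h6 : (Bs P (B1 c₁ η lam) (B2 c₂ η lam) t + lam * v t) -
        (Bs P (B1 c₁ η lam) (B2 c₂ η lam) s + lam * v s) =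
        ((((d₁ : ℤ) : ℝ) : ℂ) * (√3 + lam * (c₁ + η)) +
          (((d₂ : ℤ) : ℝ) : ℂ) * (√3 * om + lam * (c₂ + η * om))) - (lam * (v s - v t)) := by
      unfold Bs B1 B2
      rw [hd1, hd2]
      push_cast
      ring
    rw [h6]
    have h7 : ‖(lam : ℂ) * (v s - v t)‖ ≤ lam * (2 * V) := by
      rw [norm_mul, Complex.norm_real, Real.norm_eq_abs, abs_of_nonneg hl]
      have := (norm_sub_le (v s) (v t)).trans (add_le_add (hV s) (hV t))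
      have h8 : ‖v s - v t‖ ≤ 2 * V := by linarith
      gcongr
    have h9 := norm_sub_norm_le ((((d₁ : ℤ) : ℝ) : ℂ) * (√3 + lam * (c₁ + η)) +
          (((d₂ : ℤ) : ℝ) : ℂ) * (√3 * om + lam * (c₂ + η * om))) (lam * (v s - v t))
    have hlC : 0 ≤ lam * C := mul_nonneg hl hC0
    have hlV : 0 ≤ lam * V := mul_nonneg hl hV0
    have h10 : 0 ≤ √3 - lam * (2 * C) := by nlinarith
    have h11 : (√3 - lam * (2 * C)) * √3 ≤
        (√3 - lam * (2 * C)) * ‖(((d₁ : ℤ) : ℝ) : ℂ) + (((d₂ : ℤ) : ℝ) : ℂ) * om‖ := by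
      gcongr
    have hs3u : √3 ≤ 1.7321 := by
      rw [Real.sqrt_le_left (by norm_num)]
      norm_num
    nlinarith

/-- different sites have disjoint neighbourhoods -/
theorem base_sep (hP : Function.Injective P) (hl : 0 ≤ lam) (hV : 1 ≤ V)
    (hl' : lam * (4 * (‖c₁ + η‖ + ‖c₂ + η * om‖) + 2 * V) ≤ 1) {s t : Ix m K} {z : ℂ}
    (hs : ‖z - Bs P (B1 c₁ η lam) (B2 c₂ η lam) s‖ ≤ lam * V)
    (ht : ‖z - Bs P (B1 c₁ η lam) (B2 c₂ η lam) t‖ ≤ lam * V) : s = t := by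
  by_contra hst
  set C := ‖c₁ + η‖ + ‖c₂ + η * om‖ with hC
  have hC0 : 0 ≤ C := by positivity
  set d₁ := p1 P t - p1 P s with hd1
  set d₂ := p2 P t - p2 P s with hd2
  have h3 : 1 ≤ d₁ ^ 2 + d₁ * d₂ + d₂ ^ 2 := by
    by_contra hcon
    push Not at hcon
    rcases int_cases (d₁ := d₁) (d₂ := d₂) (by omega) with ⟨h1, h2⟩ | ⟨h1, h2⟩ | ⟨h1, h2⟩ |
      ⟨h1, h2⟩ | ⟨h1, h2⟩ | ⟨h1, h2⟩ | ⟨h1, h2⟩
    · exact hst (pos_inj hP (by omega) (by omega))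
    all_goals rw [h1, h2] at hcon; norm_num at hcon
  have h3' : (1:ℝ) ≤ (d₁ : ℝ) ^ 2 + d₁ * d₂ + d₂ ^ 2 := by exact_mod_cast h3
  have h4 := base_norm hl (c₁ + η) (c₂ + η * om) (d₁ : ℝ) (d₂ : ℝ)
  rw [← hC] at h4
  have h5 : 1 ≤ ‖(((d₁ : ℤ) : ℝ) : ℂ) + (((d₂ : ℤ) : ℝ) : ℂ) * om‖ := by
    rw [← one_le_sq_iff₀ (norm_nonneg _), norm_sq_om]
    exact h3'
  have hs3 : 1.7 ≤ √3 := by
    rw [Real.le_sqrt' (by norm_num)]
    norm_num
  have h6 : ((((d₁ : ℤ) : ℝ) : ℂ) * (√3 + lam * (c₁ + η)) +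
      (((d₂ : ℤ) : ℝ) : ℂ) * (√3 * om + lam * (c₂ + η * om))) =
      (z - Bs P (B1 c₁ η lam) (B2 c₂ η lam) s) - (z - Bs P (B1 c₁ η lam) (B2 c₂ η lam) t) := by
    unfold Bs B1 B2
    rw [hd1, hd2]
    push_cast
    ring
  rw [h6] at h4
  have h7 := (norm_sub_le (z - Bs P (B1 c₁ η lam) (B2 c₂ η lam) s)
    (z - Bs P (B1 c₁ η lam) (B2 c₂ η lam) t)).trans (add_le_add hs ht)
  have hlC : 0 ≤ lam * C := mul_nonneg hl hC0
  have h10 : 0 ≤ √3 - lam * (2 * C) := by nlinarith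
  have h11 : (√3 - lam * (2 * C)) * 1 ≤
      (√3 - lam * (2 * C)) * ‖(((d₁ : ℤ) : ℝ) : ℂ) + (((d₂ : ℤ) : ℝ) : ℂ) * om‖ := by
    gcongr
  nlinarith

end

end Pool.Agent.H95.CP
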